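import Pool.Agent.TH15.T3Core

set_option autoImplicit false

/-! The lattice: two copies of the Boolean lattice with four atoms, glued at the least
element, with a new top element added. -/

namespace Pool.Agent.TH15.T3

/-- the membership condition -/
def good (p : Finset (Fin 4) × Finset (Fin 4)) : Prop := p.1 = ∅ ∨ p.2 = ∅ ∨ p = ⊤

instance : DecidablePred good := fun p => by unfold good; infer_instance

/-- the carrier -/
def Lt : Type := {p : Finset (Fin 4) × Finset (Fin 4) // good p}

instance : PartialOrder Lt := inferInstanceAs (PartialOrder {p // good p})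

instance : Finite Lt := inferInstanceAs (Finite {p : Finset (Fin 4) × Finset (Fin 4) // good p})

/-- the value -/
def val (x : Lt) : Finset (Fin 4) × Finset (Fin 4) := Subtype.val x

/-- the closure -/
def cl (p : Finset (Fin 4) × Finset (Fin 4)) : Lt :=
  if h : good p then ⟨p, h⟩ else ⟨⊤, Or.inr (Or.inr rfl)⟩

theorem val_cl_of_good {p : Finset (Fin 4) × Finset (Fin 4)} (h : good p) : val (cl p) = p := by
  have e : cl p = ⟨p, h⟩ := dif_pos h
  rw [e]
  rfl

theorem val_cl_of_not {p : Finset (Fin 4) × Finset (Fin 4)} (h : ¬ good p) : val (cl p) = ⊤ := by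
  have e : cl p = ⟨⊤, Or.inr (Or.inr rfl)⟩ := dif_neg h
  rw [e]
  rfl

theorem val_le {x y : Lt} : val x ≤ val y ↔ x ≤ y := Iff.rfl

theorem gc : GaloisConnection cl val := by
  intro p q
  by_cases h : good p
  · rw [← val_le, val_cl_of_good h]
  · rw [← val_le, val_cl_of_not h]
    constructor
    · intro h2
      exact le_trans le_top h2
    · intro h2
      rcases q.2 with h3 | h3 | h3
      · exfalso
        apply h
        left
        have : p.1 ≤ q.1.1 := h2.1
        rw [h3] at this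
        exact Finset.subset_empty.1 this
      · exfalso
        apply h
        right; left
        have : p.2 ≤ q.1.2 := h2.2
        rw [h3] at this
        exact Finset.subset_empty.1 this
      · exact h3.ge

/-- the insertion -/
def gi : GaloisInsertion cl val where
  choice p _ := cl p
  gc := gc
  le_l_u x := by
    have : val (cl (val x)) = val x := val_cl_of_good x.2
    exact val_le.1 this.ge
  choice_eq _ _ := rfl

instance : Lattice Lt := gi.liftLattice

/-- left elements -/
def ea (S : Finset (Fin 4)) : Lt := ⟨(S, ∅), Or.inr (Or.inl rfl)⟩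

/-- right elements -/
def eb (S : Finset (Fin 4)) : Lt := ⟨(∅, S), Or.inl rfl⟩

/-- top -/
def one : Lt := ⟨⊤, Or.inr (Or.inr rfl)⟩

theorem val_inj {x y : Lt} (h : val x = val y) : x = y := Subtype.ext h

theorem val_inf (x y : Lt) : val (x ⊓ y) = val x ⊓ val y := gc.u_inf

theorem ea_inf (S T : Finset (Fin 4)) : ea (S ∩ T) = ea S ⊓ ea T := by
  apply val_inj
  rw [val_inf]
  simp [val, ea]

theorem eb_inf (S T : Finset (Fin 4)) : eb (S ∩ T) = eb S ⊓ eb T := by
  apply val_inj
  rw [val_inf]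
  simp [val, eb]

theorem ea_eb_inf : ea Finset.univ ⊓ eb Finset.univ = ea ∅ := by
  apply val_inj
  rw [val_inf]
  simp [val, ea, eb]

theorem eb_empty : eb ∅ = ea ∅ := rfl

theorem sup_eq (i j : Fin 4) : ea {i} ⊔ eb {j} = one := by
  apply le_antisymm
  · exact val_le.1 le_top
  · have h : val (ea {i} ⊔ eb {j}) = ⊤ := by
      have h1 : val (ea {i}) ≤ val (ea {i} ⊔ eb {j}) := val_le.2 le_sup_left
      have h2 : val (eb {j}) ≤ val (ea {i} ⊔ eb {j}) := val_le.2 le_sup_right
      rcases (ea {i} ⊔ eb {j}).2 with h3 | h3 | h3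
      · exfalso
        have h4 : ({i} : Finset (Fin 4)) ≤ (val (ea {i} ⊔ eb {j})).1 := h1.1
        change ({i} : Finset (Fin 4)) ≤ (ea {i} ⊔ eb {j}).1.1 at h4
        rw [h3] at h4
        have := h4 (Finset.mem_singleton_self i)
        simp at this
      · exfalso
        have h4 : ({j} : Finset (Fin 4)) ≤ (val (ea {i} ⊔ eb {j})).2 := h2.2
        change ({j} : Finset (Fin 4)) ≤ (ea {i} ⊔ eb {j}).1.2 at h4
        rw [h3] at h4
        have := h4 (Finset.mem_singleton_self j)
        simp at this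
      · exact h3
    exact val_le.1 h.ge

theorem ne_one : ea ∅ ≠ one := by
  intro h
  have : val (ea ∅) = val one := congrArg val h
  have h2 : (∅ : Finset (Fin 4)) = ⊤ := congrArg Prod.fst this
  have h3 : (0 : Fin 4) ∈ (⊤ : Finset (Fin 4)) := Finset.mem_univ _
  rw [← h2] at h3
  simp at h3

theorem no_rep (A : Type) [Finite A] (φ : LatticeHom Lt (Setoid A)) (hφ : Function.Injective φ)
    (h : ∀ (x y : Lt) (a b : A),
          (φ (x ⊔ y)).r a b ↔
            ∃ c d e : A, (φ x).r a c ∧ (φ y).r c d ∧ (φ x).r d e ∧ (φ y).r e b) : False := by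
  classical
  set r0 := φ (ea ∅) with hr0
  set r1 := φ one with hr1
  have mono : ∀ x y : Lt, x ≤ y → φ x ≤ φ y := fun x y hxy => OrderHomClass.mono φ hxy
  have bot_le' : ∀ x : Lt, ea ∅ ≤ x := fun x => val_le.1 (by
    constructor
    · exact Finset.empty_subset _
    · exact Finset.empty_subset _)
  have le_one' : ∀ x : Lt, x ≤ one := fun x => val_le.1 le_top
  have hne : r0 ≠ r1 := fun he => ne_one (hφ he)
  have hlt : ∃ u v, r1 u v ∧ ¬ r0 u v := by
    by_contra hcon
    push Not at hcon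
    exact hne (le_antisymm (mono _ _ (bot_le' _)) (fun {u v} => hcon u v))
  obtain ⟨u0, v0, huv1, huv0⟩ := hlt
  let rep : A → A := fun u => (Quotient.mk r0 u : Quotient r0).out
  have hrep : ∀ u, r0 (rep u) u := fun u => Quotient.exact (Quotient.out_eq (Quotient.mk r0 u))
  have hrepeq : ∀ u v, r0 u v → rep u = rep v := by
    intro u v huv
    have : (Quotient.mk r0 u : Quotient r0) = Quotient.mk r0 v := Quotient.sound huv
    simp only [rep]
    rw [this]
  have hrr : ∀ u, rep (rep u) = rep u := fun u => hrepeq _ _ (hrep u)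
  have hx : ∀ (x : Lt) u, φ x u (rep u) := fun x u =>
    mono _ _ (bot_le' x) (Setoid.symm' _ (hrep u))
  let B : Type := {u : A // rep u = u ∧ r1 u0 u}
  have : Finite B := inferInstanceAs (Finite {u : A // rep u = u ∧ r1 u0 u})
  let ψ : Lt → Setoid B := fun x => (φ x).comap Subtype.val
  have hψ : ∀ x (u v : B), ψ x u v ↔ φ x u.1 v.1 := fun x u v => Iff.rfl
  have hψinf : ∀ x y, ψ (x ⊓ y) = ψ x ⊓ ψ y := by
    intro x y
    ext u v
    rw [hψ, map_inf]
    rfl
  have hψ0 : ψ (ea ∅) = ⊥ := by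
    ext u v
    rw [hψ, Setoid.bot_def]
    constructor
    · intro h2
      apply Subtype.ext
      rw [← u.2.1, ← v.2.1]
      exact hrepeq _ _ h2
    · intro h2
      rw [h2]
  have hsub : Subsingleton B := by
    refine core (fun S => ψ (ea S)) (fun S => ψ (eb S)) ?_ hψ0 ?_ (by rw [eb_empty]; exact hψ0) ?_ ?_
    · intro S T
      change ψ (ea (S ∩ T)) = ψ (ea S) ⊓ ψ (ea T)
      rw [ea_inf, hψinf]
    · intro S T
      change ψ (eb (S ∩ T)) = ψ (eb S) ⊓ ψ (eb T)
      rw [eb_inf, hψinf]
    · change ψ (ea Finset.univ) ⊓ ψ (eb Finset.univ) = ⊥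
      rw [← hψinf, ea_eb_inf, hψ0]
    · intro i j u v
      have huv : φ one u.1 v.1 := Setoid.trans' _ (Setoid.symm' _ u.2.2) v.2.2
      rw [← sup_eq i j] at huv
      obtain ⟨c, d, e, h1, h2, h3, h4⟩ := (h _ _ _ _).1 huv
      have hc : r1 u0 c := Setoid.trans' _ u.2.2 (mono _ _ (le_one' _) h1)
      have hd : r1 u0 d := Setoid.trans' _ hc (mono _ _ (le_one' _) h2)
      have he : r1 u0 e := Setoid.trans' _ hd (mono _ _ (le_one' _) h3)
      have mk : ∀ c, r1 u0 c → rep (rep c) = rep c ∧ r1 u0 (rep c) := fun c hc =>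
        ⟨hrr c, Setoid.trans' _ hc (hx one c)⟩
      refine ⟨⟨rep c, mk c hc⟩, ⟨rep d, mk d hd⟩, ⟨rep e, mk e he⟩, ?_, ?_, ?_, ?_⟩
      · exact (hψ _ _ _).2 (Setoid.trans' _ h1 (hx _ c))
      · exact (hψ _ _ _).2
          (Setoid.trans' _ (Setoid.symm' _ (hx _ c)) (Setoid.trans' _ h2 (hx _ d)))
      · exact (hψ _ _ _).2
          (Setoid.trans' _ (Setoid.symm' _ (hx _ d)) (Setoid.trans' _ h3 (hx _ e)))
      · exact (hψ _ _ _).2 (Setoid.trans' _ (Setoid.symm' _ (hx _ e)) h4)
  have e1 : r1 u0 (rep u0) := hx one u0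
  have e2 : r1 u0 (rep v0) := Setoid.trans' _ huv1 (hx one v0)
  have e3 : (⟨rep u0, hrr u0, e1⟩ : B) = ⟨rep v0, hrr v0, e2⟩ := Subsingleton.elim _ _
  have e4 : rep u0 = rep v0 := congrArg Subtype.val e3
  apply huv0
  have e5 := hrep u0
  rw [e4] at e5
  exact Setoid.trans' _ (Setoid.symm' _ e5) (hrep v0)

end Pool.Agent.TH15.T3
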