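import Mathlib

set_option autoImplicit false

/-! Two independent families of four partitions of a finite set cannot be joined by
products of length four: the combinatorial core of the negative answer for type-3
representations. -/

namespace Pool.Agent.TH15.T3

open Finset

open scoped Classical in
/-- the block of `u` as a finset -/
noncomputable def blk {A : Type} [Fintype A] (r : Setoid A) (u : A) : Finset A :=
  Finset.univ.filter (fun v => r u v)

theorem mem_blk {A : Type} [Fintype A] (r : Setoid A) (u v : A) : v ∈ blk r u ↔ r u v := by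
  simp [blk]

theorem self_mem_blk {A : Type} [Fintype A] (r : Setoid A) (u : A) : u ∈ blk r u :=
  (mem_blk r u u).2 (Setoid.refl' r u)

open scoped Classical in
/-- the number of `r`-blocks met by the `s`-block of `u` -/
noncomputable def nb {A : Type} [Fintype A] (r s : Setoid A) (u : A) : ℕ :=
  ((blk s u).image (fun v => (Quotient.mk r v : Quotient r))).card

theorem eq_of_inf {A : Type} {r s : Setoid A} (h : r ⊓ s = ⊥) {u v : A} (h1 : r u v) (h2 : s u v) :
    u = v := by
  have h3 : (r ⊓ s) u v := ⟨h1, h2⟩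
  rw [h] at h3
  exact h3

/-- the key count: every `t`-block has many elements in its `r`-neighbourhood -/
theorem key {A : Type} [Fintype A] (r s t : Setoid A) (hrs : r ≤ s) (hst : s ⊓ t = ⊥)
    (h3 : ∀ u v, ∃ w1 w2 w3, r u w1 ∧ t w1 w2 ∧ r w2 w3 ∧ t w3 v) (u y0 : A) :
    nb r s u ≤ ∑ y ∈ blk t y0, (blk r y).card := by
  classical
  refine le_trans ?_ (Finset.card_biUnion_le)
  let g : A → Quotient r := fun w =>
    if h : ∃ w1, s u w1 ∧ t w1 w then (Quotient.mk r h.choose : Quotient r)
    else (Quotient.mk r u : Quotient r)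
  unfold nb
  refine le_trans (Finset.card_le_card (t := ((blk t y0).biUnion (fun y => blk r y)).image g) ?_)
    Finset.card_image_le
  intro q hq
  rw [Finset.mem_image] at hq
  obtain ⟨x, hx, rfl⟩ := hq
  rw [mem_blk] at hx
  obtain ⟨w1, w2, w3, h1, h2, h4, h5⟩ := h3 x y0
  rw [Finset.mem_image]
  refine ⟨w2, ?_, ?_⟩
  · rw [Finset.mem_biUnion]
    exact ⟨w3, (mem_blk _ _ _).2 (Setoid.symm' _ h5), (mem_blk _ _ _).2 (Setoid.symm' _ h4)⟩
  · have hu1 : s u w1 := Setoid.trans' _ hx (hrs h1)
    have hex : ∃ w1, s u w1 ∧ t w1 w2 := ⟨w1, hu1, h2⟩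
    have hg : g w2 = (Quotient.mk r hex.choose : Quotient r) := by
      simp only [g]
      rw [dif_pos hex]
    rw [hg]
    have hc := hex.choose_spec
    have e : hex.choose = w1 :=
      eq_of_inf hst (Setoid.trans' _ (Setoid.symm' _ hc.1) hu1)
        (Setoid.trans' _ hc.2 (Setoid.symm' _ h2))
    rw [e]
    exact Quotient.sound (Setoid.symm' _ h1)

theorem expand {A : Type} [Fintype A] (γ c δ : Setoid A) (hγ : γ ≤ δ) (hc : c ≤ δ)
    (hi : γ ⊓ c = ⊥) (m : ℕ) (hm : ∀ z, m ≤ (blk c z).card) (y : A) :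
    (blk γ y).card * m ≤ (blk δ y).card := by
  classical
  have hdis : ((blk γ y : Finset A) : Set A).PairwiseDisjoint (fun z => blk c z) := by
    intro z hz z' hz' hne
    rw [Function.onFun, Finset.disjoint_left]
    intro w hw hw'
    rw [mem_blk] at hw hw'
    apply hne
    have hz2 : γ y z := (mem_blk _ _ _).1 hz
    have hz2' : γ y z' := (mem_blk _ _ _).1 hz'
    exact eq_of_inf hi (Setoid.trans' _ (Setoid.symm' _ hz2) hz2')
      (Setoid.trans' _ hw (Setoid.symm' _ hw'))
  have hsub : (blk γ y).biUnion (fun z => blk c z) ⊆ blk δ y := by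
    intro w hw
    rw [Finset.mem_biUnion] at hw
    obtain ⟨z, hz, hw⟩ := hw
    rw [mem_blk] at hz hw ⊢
    exact Setoid.trans' _ (hγ hz) (hc hw)
  calc (blk γ y).card * m = ∑ _z ∈ blk γ y, m := by simp
    _ ≤ ∑ z ∈ blk γ y, (blk c z).card := Finset.sum_le_sum (fun z _ => hm z)
    _ = ((blk γ y).biUnion (fun z => blk c z)).card := (Finset.card_biUnion hdis).symm
    _ ≤ (blk δ y).card := Finset.card_le_card hsub

theorem le_nb {A : Type} [Fintype A] (r γ s : Setoid A) (hγ : γ ≤ s) (hi : γ ⊓ r = ⊥) (y : A) :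
    (blk γ y).card ≤ nb r s y := by
  classical
  unfold nb
  have hinj : Set.InjOn (fun v => (Quotient.mk r v : Quotient r)) ((blk γ y : Finset A) : Set A) := by
    intro z hz z' hz' he
    have hz2 : γ y z := (mem_blk _ _ _).1 hz
    have hz2' : γ y z' := (mem_blk _ _ _).1 hz'
    exact eq_of_inf hi (Setoid.trans' _ (Setoid.symm' _ hz2) hz2') (Quotient.exact he)
  rw [← Finset.card_image_of_injOn hinj]
  refine Finset.card_le_card (Finset.image_subset_image ?_)
  intro w hw
  rw [mem_blk] at hw ⊢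
  exact hγ hw

theorem four (i : Fin 4) : ∃ p q l : Fin 4, p ≠ i ∧ q ≠ i ∧ q ≠ p ∧ l ≠ i ∧ l ≠ p ∧ l ≠ q := by
  revert i; decide

/-- if all small blocks on one side have at least `m` elements, all on the other have at
least `m ^ 2` elements -/
theorem square {A : Type} [Fintype A] (a : Finset (Fin 4) → Setoid A)
    (t : Setoid A) (ha : ∀ S T, a (S ∩ T) = a S ⊓ a T) (ha0 : a ∅ = ⊥)
    (hst : a Finset.univ ⊓ t = ⊥)
    (h3 : ∀ i, ∀ u v, ∃ w1 w2 w3, a {i} u w1 ∧ t w1 w2 ∧ a {i} w2 w3 ∧ t w3 v)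
    (m : ℕ) (hm : ∀ i z, m ≤ (blk (a {i}) z).card) (y0 : A) :
    m ^ 2 ≤ (blk t y0).card := by
  classical
  have mono : ∀ S T, S ⊆ T → a S ≤ a T := by
    intro S T h
    have := ha S T
    rw [Finset.inter_eq_left.2 h] at this
    rw [this]
    exact inf_le_right
  have hne : (Finset.univ : Finset (Fin 4 × A)).Nonempty := ⟨(0, y0), Finset.mem_univ _⟩
  obtain ⟨⟨i, u⟩, -, hmax⟩ := Finset.exists_max_image Finset.univ
    (fun p : Fin 4 × A => nb (a {p.1}) (a Finset.univ) p.2) hne
  have hmax' : ∀ (l : Fin 4) (z : A), nb (a {l}) (a Finset.univ) z ≤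
      nb (a {i}) (a Finset.univ) u := fun l z => hmax (l, z) (Finset.mem_univ _)
  set ν := nb (a {i}) (a Finset.univ) u with hν
  have hk : ν ≤ ∑ y ∈ blk t y0, (blk (a {i}) y).card :=
    key (a {i}) (a Finset.univ) t (mono _ _ (Finset.subset_univ _)) hst (h3 i) u y0
  -- each summand is small
  obtain ⟨p, q, l, hp, hq, hqp, hl, hlp, hlq⟩ := four i
  have hs : ∀ y, (blk (a {i}) y).card * m ^ 2 ≤ ν := by
    intro y
    have e1 : (blk (a {i}) y).card * m ≤ (blk (a {p, i}) y).card := by
      refine expand (a {i}) (a {p}) (a {p, i}) (mono _ _ ?_) (mono _ _ ?_) ?_ m (hm p) y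
      · intro x hx; simp at hx ⊢; right; exact hx
      · intro x hx; simp at hx ⊢; left; exact hx
      · rw [← ha]
        have : ({i} : Finset (Fin 4)) ∩ {p} = ∅ := by
          ext x; simp; intro h1 h2; exact hp (h2.symm.trans h1)
        rw [this, ha0]
    have e2 : (blk (a {p, i}) y).card * m ≤ (blk (a {q, p, i}) y).card := by
      refine expand (a {p, i}) (a {q}) (a {q, p, i}) (mono _ _ ?_) (mono _ _ ?_) ?_ m (hm q) y
      · intro x hx; simp at hx ⊢; right; exact hx
      · intro x hx; simp at hx ⊢; left; exact hx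
      · rw [← ha]
        have : ({p, i} : Finset (Fin 4)) ∩ {q} = ∅ := by
          ext x
          simp only [Finset.mem_inter, Finset.mem_insert, Finset.mem_singleton,
            Finset.notMem_empty, iff_false, not_and]
          rintro (h1 | h1) h2
          · exact hqp (h2.symm.trans h1)
          · exact hq (h2.symm.trans h1)
        rw [this, ha0]
    have e3 : (blk (a {q, p, i}) y).card ≤ nb (a {l}) (a Finset.univ) y := by
      refine le_nb (a {l}) (a {q, p, i}) (a Finset.univ) (mono _ _ (Finset.subset_univ _)) ?_ y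
      rw [← ha]
      have : ({q, p, i} : Finset (Fin 4)) ∩ {l} = ∅ := by
        ext x
        simp only [Finset.mem_inter, Finset.mem_insert, Finset.mem_singleton,
          Finset.notMem_empty, iff_false, not_and]
        rintro (h1 | h1 | h1) h2
        · exact hlq (h2.symm.trans h1)
        · exact hlp (h2.symm.trans h1)
        · exact hl (h2.symm.trans h1)
      rw [this, ha0]
    calc (blk (a {i}) y).card * m ^ 2 = (blk (a {i}) y).card * m * m := by ring
      _ ≤ (blk (a {p, i}) y).card * m := Nat.mul_le_mul_right _ e1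
      _ ≤ (blk (a {q, p, i}) y).card := e2
      _ ≤ nb (a {l}) (a Finset.univ) y := e3
      _ ≤ ν := hmax' l y
  have hνpos : 0 < ν := by
    rw [hν]
    unfold nb
    rw [Finset.card_pos]
    exact ⟨_, Finset.mem_image_of_mem _ (self_mem_blk _ u)⟩
  have h5 : ν * m ^ 2 ≤ (blk t y0).card * ν := by
    calc ν * m ^ 2 ≤ (∑ y ∈ blk t y0, (blk (a {i}) y).card) * m ^ 2 :=
          Nat.mul_le_mul_right _ hk
      _ = ∑ y ∈ blk t y0, (blk (a {i}) y).card * m ^ 2 := by rw [Finset.sum_mul]
      _ ≤ ∑ _y ∈ blk t y0, ν := Finset.sum_le_sum (fun y _ => hs y)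
      _ = (blk t y0).card * ν := by simp
  rw [mul_comm] at h5
  exact Nat.le_of_mul_le_mul_right h5 hνpos

/-- the core statement: the base set has at most one element -/
theorem core {A : Type} [Finite A] (a b : Finset (Fin 4) → Setoid A)
    (ha : ∀ S T, a (S ∩ T) = a S ⊓ a T) (ha0 : a ∅ = ⊥)
    (hb : ∀ S T, b (S ∩ T) = b S ⊓ b T) (hb0 : b ∅ = ⊥)
    (hab : a Finset.univ ⊓ b Finset.univ = ⊥)
    (h3 : ∀ i j, ∀ u v, ∃ w1 w2 w3, a {i} u w1 ∧ b {j} w1 w2 ∧ a {i} w2 w3 ∧ b {j} w3 v) :
    Subsingleton A := by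
  classical
  have := Fintype.ofFinite A
  rw [← not_nontrivial_iff_subsingleton]
  intro hA
  have monoa : ∀ S T, S ⊆ T → a S ≤ a T := by
    intro S T h
    have := ha S T
    rw [Finset.inter_eq_left.2 h] at this
    rw [this]
    exact inf_le_right
  have monob : ∀ S T, S ⊆ T → b S ≤ b T := by
    intro S T h
    have := hb S T
    rw [Finset.inter_eq_left.2 h] at this
    rw [this]
    exact inf_le_right
  obtain ⟨o⟩ : Nonempty A := inferInstance
  have hne : (Finset.univ : Finset (Fin 4 × A)).Nonempty := ⟨(0, o), Finset.mem_univ _⟩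
  obtain ⟨⟨i, u⟩, -, hmin⟩ := Finset.exists_min_image Finset.univ
    (fun p : Fin 4 × A => (blk (a {p.1}) p.2).card) hne
  obtain ⟨⟨j, w⟩, -, hmin'⟩ := Finset.exists_min_image Finset.univ
    (fun p : Fin 4 × A => (blk (b {p.1}) p.2).card) hne
  have h1 : ((blk (a {i}) u).card) ^ 2 ≤ (blk (b {j}) w).card := by
    refine square a (b {j}) ha ha0 ?_ (fun i => h3 i j) _
      (fun l z => hmin (l, z) (Finset.mem_univ _)) w
    refine le_antisymm ?_ bot_le
    rw [← hab]
    exact inf_le_inf le_rfl (monob _ _ (Finset.subset_univ _))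
  have h2 : ((blk (b {j}) w).card) ^ 2 ≤ (blk (a {i}) u).card := by
    refine square b (a {i}) hb hb0 ?_ (fun j x y => ?_) _
      (fun l z => hmin' (l, z) (Finset.mem_univ _)) u
    · refine le_antisymm ?_ bot_le
      rw [← hab, inf_comm]
      exact inf_le_inf (monoa _ _ (Finset.subset_univ _)) le_rfl
    · obtain ⟨w1, w2, w3, k1, k2, k3, k4⟩ := h3 i j y x
      exact ⟨w3, w2, w1, Setoid.symm' _ k4, Setoid.symm' _ k3, Setoid.symm' _ k2,
        Setoid.symm' _ k1⟩
  have hpos : 0 < (blk (a {i}) u).card := Finset.card_pos.2 ⟨u, self_mem_blk _ u⟩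
  have hone : (blk (a {i}) u).card = 1 := by
    set x := (blk (a {i}) u).card
    set y := (blk (b {j}) w).card
    by_contra hx
    have hx2 : 2 ≤ x := by omega
    have h4 : (x ^ 2) ^ 2 ≤ x := le_trans (Nat.pow_le_pow_left h1 2) h2
    nlinarith [Nat.pow_le_pow_left hx2 2]
  -- so the block of `u` is a singleton
  have hsing : ∀ v, a {i} u v → v = u := by
    intro v hv
    rw [Finset.card_eq_one] at hone
    obtain ⟨z, hz⟩ := hone
    have e1 : v ∈ blk (a {i}) u := (mem_blk _ _ _).2 hv
    have e2 : u ∈ blk (a {i}) u := self_mem_blk _ _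
    rw [hz, Finset.mem_singleton] at e1 e2
    rw [e1, e2]
  have hbb : ∀ j v, b Finset.univ u v → b {j} u v := by
    intro j v hv
    obtain ⟨w1, w2, w3, k1, k2, k3, k4⟩ := h3 i j u v
    have e1 := hsing _ k1
    subst e1
    have k2' : b Finset.univ w1 w2 := monob _ _ (Finset.subset_univ _) k2
    have k4' : b Finset.univ w3 v := monob _ _ (Finset.subset_univ _) k4
    have k5 : b Finset.univ w2 w3 :=
      Setoid.trans' _ (Setoid.symm' _ k2') (Setoid.trans' _ hv (Setoid.symm' _ k4'))
    have e2 : w2 = w3 := eq_of_inf hab (monoa _ _ (Finset.subset_univ _) k3) k5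
    subst e2
    exact Setoid.trans' _ k2 k4
  have hbs : ∀ j v, b {j} u v → v = u := by
    intro j v hv
    have hv' : b Finset.univ u v := monob _ _ (Finset.subset_univ _) hv
    have k0 := hbb 0 v hv'
    have k1 := hbb 1 v hv'
    have : (b {0} ⊓ b {1}) u v := ⟨k0, k1⟩
    rw [← hb] at this
    have e : ({0} : Finset (Fin 4)) ∩ {1} = ∅ := by decide
    rw [e, hb0] at this
    exact this.symm
  have hall : ∀ v, v = u := by
    intro v
    obtain ⟨w1, w2, w3, k1, k2, k3, k4⟩ := h3 i 0 u v
    have e1 := hsing _ k1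
    subst e1
    have e2 := hbs _ _ k2
    subst e2
    have e3 := hsing _ k3
    subst e3
    exact hbs _ _ k4
  obtain ⟨x, y, hxy⟩ := hA
  exact hxy ((hall x).trans (hall y).symm)

end Pool.Agent.TH15.T3
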